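import Mathlib

/-!
# Termination of klt flips: the non-pseudo-effective case implies the general case
-/

universe u

namespace Pool.Agent.Results.MP_89a3f8_ag.SameAsAllKltFlips

/-- `ℚ`-factorial klt pairs `(X, Δ)` with a projective surjective morphism to a variety `S`, their
flips over `S`, and the products `(X × ℙ¹, Δ × ℙ¹)` over `S`. -/
structure Pairs where
  /-- the pairs `(X, Δ)` over `S` -/
  Obj : Type u
  /-- the dimension of `X` -/
  dim : Obj → ℕ
  /-- `K_X + Δ` is pseudo-effective over `S` -/
  Psef : Obj → Prop
  /-- `Flip A B`: the pair `B` is a flip of the pair `A` -/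
  Flip : Obj → Obj → Prop
  /-- the product with the projective line -/
  line : Obj → Obj
  dim_line : ∀ A, dim (line A) = dim A + 1
  not_psef_line : ∀ A, ¬ Psef (line A)
  flip_line : ∀ A B, Flip A B → Flip (line A) (line B)

variable (T : Pairs.{u})

/-- Every sequence of flips starting from `A` is finite. -/
def Terminates (A : T.Obj) : Prop :=
  ¬ ∃ f : ℕ → T.Obj, f 0 = A ∧ ∀ i, T.Flip (f i) (f (i + 1))

lemma Terminates.of_line {A : T.Obj} (h : Terminates T (T.line A)) : Terminates T A := by
  rintro ⟨f, h0, hf⟩
  exact h ⟨fun i => T.line (f i), congrArg T.line h0, fun i => T.flip_line _ _ (hf i)⟩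

/-- (1) In each dimension `n`, termination of all sequences of flips starting from pairs of dimension
`n` follows from termination for those pairs of dimension `n + 1` for which `K + Δ` is not
pseudo-effective. (2) Termination holds in all dimensions if and only if it holds for all pairs for
which `K + Δ` is not pseudo-effective. -/
theorem result :
    (∀ n : ℕ, (∀ A : T.Obj, T.dim A = n + 1 → ¬ T.Psef A → Terminates T A) →
      ∀ A : T.Obj, T.dim A = n → Terminates T A) ∧
    ((∀ A : T.Obj, ¬ T.Psef A → Terminates T A) ↔ ∀ A : T.Obj, Terminates T A) := by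
  refine ⟨fun n h A hA => ?_, fun h A => ?_, fun h A _ => h A⟩
  · exact (h (T.line A) (by rw [T.dim_line, hA]) (T.not_psef_line A)).of_line
  · exact (h (T.line A) (T.not_psef_line A)).of_line

end Pool.Agent.Results.MP_89a3f8_ag.SameAsAllKltFlips
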